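import Pool.Agent.Y718.FQ.Stm
import Pool.Agent.Y165.CL.Ufd
import Pool.Agent.Y718.CL.Loc
import Pool.Agent.Y720.WA.Conv

/-!
# Project FQ: generic points of a quartic double cover which specialize to a given point
-/

set_option autoImplicit false

open Pool.Agent.Y720.MZ Pool.Agent.Y718.FQ

namespace Pool.Agent.Y48.FQ

section place

variable {A : Type} [CommRing A] [IsDomain A] [UniqueFactorizationMonoid A]
variable {k : Type} [Field k] {φ : A →+* k} {π : A}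

/-- square roots are regular -/
theorem Rs_sqrt (hπ : Prime π) (hφ0 : ∀ x, φ x = 0 ↔ π ∣ x) {τ : FractionRing A}
    (h : Rs φ (τ ^ 2) 0) : Rs φ τ 0 := by
  obtain ⟨u', v', h1, h2, h3⟩ := h
  rw [zero_mul] at h3
  obtain ⟨a, b, hrel, hab⟩ := IsFractionRing.exists_reduced_fraction (A := A) (K := FractionRing A) τ
  have hs : τ * algebraMap A (FractionRing A) b = algebraMap A (FractionRing A) a := by
    rw [← hab]
    exact IsLocalization.mk'_spec (FractionRing A) a b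
  have h4 : a ^ 2 * v' = u' * (b : A) ^ 2 := by
    apply IsFractionRing.injective A (FractionRing A)
    rw [map_mul, map_mul, map_pow, map_pow, ← hs, ← h2]
    ring
  have hu' : π ∣ u' := (hφ0 u').1 h3.symm
  have hv' : ¬ π ∣ v' := fun h => h1 ((hφ0 v').2 h)
  have ha : π ∣ a := by
    have h5 : π ∣ a ^ 2 * v' := by
      rw [h4]
      exact hu'.mul_right _
    exact hπ.dvd_of_dvd_pow ((hπ.dvd_or_dvd h5).resolve_right hv')
  have hb : ¬ π ∣ (b : A) := fun hb => hπ.not_unit (hrel ha hb)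
  exact ⟨a, b, fun h => hb ((hφ0 _).1 h), hs, by rw [zero_mul, (hφ0 a).2 ha]⟩

end place

/-- the doubling sequence at a generic pole, with the place -/
theorem ufdX {F A : Type} [Field F] [CharZero F] [CommRing A] [IsDomain A]
    [UniqueFactorizationMonoid A] [Algebra F A] (a b c B T u k : A) (hB : B ≠ 0) (hBT : ¬ B ∣ T)
    (hk : IsUnit k) : ∃ N D g : A, g ≠ 0 ∧ T ^ 2 - B ^ 2 * u = g ^ 2 * N ∧ k * B ^ 2 = g ^ 2 * D ∧
    (∀ n, (itd a b c (N, D) n).2 ≠ 0) ∧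
    (∀ i j, i ≠ j → (itd a b c (N, D) i).1 * (itd a b c (N, D) j).2 -
      (itd a b c (N, D) j).1 * (itd a b c (N, D) i).2 ≠ 0) ∧
    ∃ (k' : Type) (_ : Field k') (_ : CharZero k') (φ : A →+* k') (π : A), Prime π ∧
      (∀ x, φ x = 0 ↔ π ∣ x) ∧ ∀ i, φ (itd a b c (N, D) i).1 ≠ 0 ∧ φ (itd a b c (N, D) i).2 = 0 := by
  obtain ⟨B', T', g, hrel, hgB, hgT⟩ := UniqueFactorizationMonoid.exists_reduced_factors B hB T
  have hg : g ≠ 0 := by
    rintro rfl
    rw [zero_mul] at hgB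
    exact hB hgB.symm
  have hB' : B' ≠ 0 := by
    rintro rfl
    rw [mul_zero] at hgB
    exact hB hgB.symm
  have hBu : ¬ IsUnit B' := by
    intro h
    apply hBT
    rw [← hgB, ← hgT]
    exact mul_dvd_mul_left g h.dvd
  obtain ⟨π, hirr, hπB⟩ := WfDvdMonoid.exists_irreducible_factor hBu hB'
  have hπ : Prime π := UniqueFactorizationMonoid.irreducible_iff_prime.1 hirr
  have hπT : ¬ π ∣ T' := fun h => hπ.not_isUnit (hrel hπB h)
  set N : A := T' ^ 2 - B' ^ 2 * u with hN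
  set D : A := k * B' ^ 2 with hD
  have hπN : ¬ π ∣ N := by
    intro h
    apply hπT
    have h1 : π ∣ B' ^ 2 * u := (dvd_pow hπB two_ne_zero).mul_right u
    have h2 : π ∣ T' ^ 2 := by
      have := dvd_add h h1
      rwa [hN, sub_add_cancel] at this
    exact hπ.dvd_of_dvd_pow h2
  have hD0 : D ≠ 0 := mul_ne_zero hk.ne_zero (pow_ne_zero 2 hB')
  obtain ⟨j, E, hπE, hDE⟩ := WfDvdMonoid.max_power_factor hD0 hirr
  have hj : j ≠ 0 := by
    rintro rfl
    rw [pow_zero, one_mul] at hDE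
    apply hπE
    rw [← hDE, hD]
    exact (dvd_pow hπB two_ne_zero).mul_left k
  -- the residue field
  set I : Ideal A := Ideal.span {π} with hI
  have hIp : I.IsPrime := (Ideal.span_singleton_prime hπ.ne_zero).2 hπ
  set φ : A →+* FractionRing (A ⧸ I) :=
    (algebraMap (A ⧸ I) (FractionRing (A ⧸ I))).comp (Ideal.Quotient.mk I) with hφ
  have hφ0 : ∀ x, φ x = 0 ↔ π ∣ x := by
    intro x
    rw [hφ, RingHom.comp_apply, map_eq_zero_iff _ (IsFractionRing.injective (A ⧸ I) (FractionRing (A ⧸ I))),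
      hI, Ideal.Quotient.eq_zero_iff_dvd]
  have hchar : CharZero (FractionRing (A ⧸ I)) :=
    (RingHom.charZero_iff (ϕ := φ.comp (algebraMap F A)) (RingHom.injective _)).1 inferInstance
  have hφπ : φ (π ^ j) = 0 := by
    rw [map_pow, (hφ0 π).2 dvd_rfl, zero_pow hj]
  have hφN : φ N ≠ 0 := fun h => hπN ((hφ0 N).1 h)
  have hφE : φ E ≠ 0 := fun h => hπE ((hφ0 E).1 h)
  choose G hG1 hG2 using fun i : ℕ => itd_pole (a := a) (b := b) (c := c) (N := N) hDE i
  have hst := fun i => hG2 i φ hφπ hφN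
  have hG0 : ∀ i, φ (G i) ≠ 0 := by
    intro i h0
    have h1 := (hst i).2
    rw [h0, zero_mul] at h1
    exact mul_ne_zero (mul_ne_zero (pow_ne_zero i (by norm_num)) hφE) (hst i).1 h1.symm
  have hπj : π ^ j ≠ 0 := pow_ne_zero j hπ.ne_zero
  have hq2 : ∀ i, (itd a b c (N, D) i).2 ≠ 0 := by
    intro i h0
    rw [hG1 i] at h0
    have h2 := (mul_eq_zero.1 h0).resolve_left hπj
    exact hG0 i (by rw [h2, map_zero])
  refine ⟨N, D, g, hg, ?_, ?_, hq2, ?_, FractionRing (A ⧸ I), inferInstance, hchar, φ, π, hπ, hφ0, ?_⟩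
  · rw [← hgB, ← hgT, hN]
    ring
  · rw [← hgB, hD]
    ring
  · intro i l hil h0
    rw [hG1 i, hG1 l] at h0
    have h3 : π ^ j * ((itd a b c (N, D) i).1 * G l - (itd a b c (N, D) l).1 * G i) = 0 := by
      linear_combination h0
    have h4 := (mul_eq_zero.1 h3).resolve_left hπj
    have h5 := congrArg φ h4
    rw [map_sub, map_mul, map_mul, map_zero] at h5
    obtain ⟨n1, m1⟩ := hst i
    obtain ⟨n2, m2⟩ := hst l
    have h6 : (4 : FractionRing (A ⧸ I)) ^ i ≠ 4 ^ l := by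
      intro h
      have h7 : ((4 ^ i : ℕ) : FractionRing (A ⧸ I)) = ((4 ^ l : ℕ) : FractionRing (A ⧸ I)) := by
        push_cast
        exact h
      have h8 : (4 : ℕ) ^ i = 4 ^ l := Nat.cast_injective h7
      exact hil (Nat.pow_right_injective (le_refl 2 |>.trans (by norm_num)) h8)
    have h8 : (φ (itd a b c (N, D) i).1 * φ (itd a b c (N, D) l).1 * φ E) * (4 ^ l - 4 ^ i) = 0 := by
      linear_combination φ N * h5 - φ (itd a b c (N, D) i).1 * m2 + φ (itd a b c (N, D) l).1 * m1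
    exact mul_ne_zero (mul_ne_zero (mul_ne_zero n1 n2) hφE) (sub_ne_zero.2 h6.symm) h8
  · intro i
    refine ⟨(hst i).1, ?_⟩
    rw [hG1 i, map_mul, hφπ, zero_mul]

section vals

variable {A : Type} [CommRing A] [IsDomain A] [UniqueFactorizationMonoid A]
variable {k : Type} [Field k] [CharZero k] {φ : A →+* k} {π : A}

/-- the values of the parameter and of the ordinate at the place -/
theorem vals (hπ : Prime π) (hφ0 : ∀ x, φ x = 0 ↔ π ∣ x) {y q1 q2 q3 b c N D : A}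
    (hy : φ y ≠ 0) (hN : φ N ≠ 0) (hD : φ D = 0) {x z : FractionRing A} (hz : z ≠ 0)
    (hx : x * algebraMap A (FractionRing A) D = algebraMap A (FractionRing A) N)
    (hc : z ^ 2 = x ^ 3 + algebraMap A (FractionRing A) q2 * x ^ 2 +
      algebraMap A (FractionRing A) b * x + algebraMap A (FractionRing A) c) :
    Df (algebraMap A (FractionRing A) y) (algebraMap A (FractionRing A) q1)
      (algebraMap A (FractionRing A) q3) x z ≠ 0 ∧
    Rs φ (tf (algebraMap A (FractionRing A) y) (algebraMap A (FractionRing A) q1)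
      (algebraMap A (FractionRing A) q2) (algebraMap A (FractionRing A) q3) x z) 0 ∧
    Rs φ (Yf (algebraMap A (FractionRing A) y) (algebraMap A (FractionRing A) q1)
      (algebraMap A (FractionRing A) q2) (algebraMap A (FractionRing A) q3) x z) (φ y) := by
  set ι := algebraMap A (FractionRing A) with hι
  have hιN : ι N ≠ 0 := by
    intro h0
    apply hN
    rw [(map_eq_zero_iff _ (IsFractionRing.injective A (FractionRing A))).1 h0, map_zero]
  have hιy : ι y ≠ 0 := by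
    intro h0
    apply hy
    rw [(map_eq_zero_iff _ (IsFractionRing.injective A (FractionRing A))).1 h0, map_zero]
  have hx0 : x ≠ 0 := by
    rintro rfl
    rw [zero_mul] at hx
    exact hιN hx.symm
  have r0 : Rs φ x⁻¹ 0 := by
    refine ⟨D, N, hN, ?_, by rw [zero_mul, hD]⟩
    rw [← hι, ← hx]
    field_simp
  have r1 : Rs φ (1 + ι q2 * x⁻¹ + ι b * x⁻¹ ^ 2 + ι c * x⁻¹ ^ 3) 1 := by
    have h1 : Rs φ (1 : FractionRing A) (1 : k) := by simpa using Rs.base φ 1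
    have h2 := ((h1.add ((Rs.base φ q2).mul r0)).add ((Rs.base φ b).mul (r0.pow 2))).add
      ((Rs.base φ c).mul (r0.pow 3))
    simpa using h2
  set ax := 1 + ι q2 * x⁻¹ + ι b * x⁻¹ ^ 2 + ι c * x⁻¹ ^ 3 with hax
  have hax0 : ax ≠ 0 := r1.ne_zero one_ne_zero
  have hc' : z ^ 2 = x ^ 3 * ax := by
    rw [hc, hax]
    field_simp
  -- tau
  set τ := x / z with hτ
  have r2 : Rs φ ax⁻¹ 1 := by simpa using r1.inv one_ne_zero
  have e1 : τ ^ 2 = x⁻¹ * ax⁻¹ := by
    rw [hτ, div_pow, hc']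
    field_simp
  have e2 : τ ^ 2 * x = ax⁻¹ := by
    rw [e1]
    field_simp
  have r3 : Rs φ τ 0 := by
    apply Rs_sqrt hπ hφ0
    rw [e1]
    simpa using r0.mul r2
  have r4 : Rs φ (τ * x⁻¹) 0 := by simpa using r3.mul r0
  have e3 : τ * x⁻¹ = z⁻¹ := by
    rw [hτ]
    field_simp
  -- denominators and numerators
  have r2c : Rs φ (2 : FractionRing A) (2 : k) := by
    have h := Rs.base φ 2
    rwa [map_ofNat, map_ofNat] at h
  have r4c : Rs φ (4 : FractionRing A) (4 : k) := by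
    have h := Rs.base φ 4
    rwa [map_ofNat, map_ofNat] at h
  have r5 : Rs φ (Df (ι y) (ι q1) (ι q3) x z / z) (2 * φ y) := by
    have e : Df (ι y) (ι q1) (ι q3) x z / z =
        2 * ι y - ι q1 * τ - 2 * ι y ^ 2 * ι q3 * (τ * x⁻¹) := by
      rw [e3, hτ, Df]
      field_simp
    rw [e]
    have h2 := ((r2c.mul (Rs.base φ y)).sub ((Rs.base φ q1).mul r3)).sub
      (((r2c.mul ((Rs.base φ y).pow 2)).mul (Rs.base φ q3)).mul r4)
    simpa using h2
  have h2y : (2 * φ y) ≠ 0 := mul_ne_zero two_ne_zero hy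
  have hDf : Df (ι y) (ι q1) (ι q3) x z ≠ 0 := by
    intro h0
    rw [h0, zero_div] at r5
    exact r5.ne_zero h2y rfl
  -- the cofactor of the numerator
  set M := 4 * ι y ^ 2 + (4 * ι y ^ 2 * ι q2 - ι q1 ^ 2) * x⁻¹ with hM
  have r6 : Rs φ M (4 * φ y ^ 2) := by
    have h2 := (r4c.mul ((Rs.base φ y).pow 2)).add
      ((((r4c.mul ((Rs.base φ y).pow 2)).mul (Rs.base φ q2)).sub ((Rs.base φ q1).pow 2)).mul r0)
    simpa using h2
  have e4 : Nf (ι y) (ι q1) (ι q2) x / z = τ * M := by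
    rw [hτ, hM, Nf]
    field_simp
    ring
  have e5 : tf (ι y) (ι q1) (ι q2) (ι q3) x z = τ * (M / (Df (ι y) (ι q1) (ι q3) x z / z)) := by
    rw [tf, ← mul_div_assoc, ← e4]
    field_simp
  have r7 : Rs φ (M / (Df (ι y) (ι q1) (ι q3) x z / z)) (4 * φ y ^ 2 / (2 * φ y)) := r6.div r5 h2y
  have r8 : Rs φ (tf (ι y) (ι q1) (ι q2) (ι q3) x z) 0 := by
    rw [e5]
    simpa using r3.mul r7
  refine ⟨hDf, r8, ?_⟩
  have e6 : tf (ι y) (ι q1) (ι q2) (ι q3) x z * (tf (ι y) (ι q1) (ι q2) (ι q3) x z * x - ι q1) =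
      ax⁻¹ * (M / (Df (ι y) (ι q1) (ι q3) x z / z)) ^ 2 -
        ι q1 * tf (ι y) (ι q1) (ι q2) (ι q3) x z := by
    have e7 : tf (ι y) (ι q1) (ι q2) (ι q3) x z * tf (ι y) (ι q1) (ι q2) (ι q3) x z * x =
        ax⁻¹ * (M / (Df (ι y) (ι q1) (ι q3) x z / z)) ^ 2 := by
      rw [← e2]
      conv_lhs => rw [e5]
      ring
    linear_combination e7
  have r9 : Rs φ (-(ι y) + (ax⁻¹ * (M / (Df (ι y) (ι q1) (ι q3) x z / z)) ^ 2 -
        ι q1 * tf (ι y) (ι q1) (ι q2) (ι q3) x z) / (2 * ι y))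
      (-(φ y) + (1 * (4 * φ y ^ 2 / (2 * φ y)) ^ 2 - φ q1 * 0) / (2 * φ y)) :=
    (Rs.base φ y).neg.add ((((r2.mul (r7.pow 2)).sub ((Rs.base φ q1).mul r8))).div
      (r2c.mul (Rs.base φ y)) h2y)
  have e8 : (-(φ y) + (1 * (4 * φ y ^ 2 / (2 * φ y)) ^ 2 - φ q1 * 0) / (2 * φ y)) = φ y := by
    field_simp
    ring
  rw [e8] at r9
  rw [Yf, e6]
  exact r9

end vals

/-- the fibres of the parameter are finite -/
theorem fib {F : Type} [Field F] [CharZero F] {y q1 q2 q3 b c : F} (hy : y ≠ 0)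
    (x z : ℕ → F) (hinj : Function.Injective x)
    (hc : ∀ i, z i ^ 2 = x i ^ 3 + q2 * x i ^ 2 + b * x i + c)
    (hD : ∀ i, Df y q1 q3 (x i) (z i) ≠ 0) (s : F) :
    {i | tf y q1 q2 q3 (x i) (z i) = s}.Finite := by
  set e := 4 * y ^ 2 * q2 - q1 ^ 2 + 2 * s * y ^ 2 * q3 with he
  set P : Cubic F := ⟨(2 * s * y) ^ 2, (2 * s * y) ^ 2 * q2 - (4 * y ^ 2 + s * q1) ^ 2,
    (2 * s * y) ^ 2 * b - 2 * (4 * y ^ 2 + s * q1) * e, (2 * s * y) ^ 2 * c - e ^ 2⟩ with hP
  have hP0 : P.toPoly ≠ 0 := by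
    by_cases hs : s = 0
    · apply Cubic.ne_zero_of_b_ne_zero
      rw [hP]
      simp only [hs]
      have h4 : (4 * y ^ 2) ^ 2 ≠ 0 := pow_ne_zero 2 (mul_ne_zero (by norm_num) (pow_ne_zero 2 hy))
      intro h0
      apply h4
      linear_combination -h0
    · apply Cubic.ne_zero_of_a_ne_zero
      exact pow_ne_zero 2 (mul_ne_zero (mul_ne_zero two_ne_zero hs) hy)
  have hfin : (x ⁻¹' {r | Polynomial.IsRoot P.toPoly r}).Finite :=
    (Polynomial.finite_setOfPred_isRoot hP0).preimage hinj.injOn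
  refine hfin.subset fun i hi => ?_
  have h1 : s * Df y q1 q3 (x i) (z i) = Nf y q1 q2 (x i) := by
    rw [← (hi : tf y q1 q2 q3 (x i) (z i) = s), tf, div_mul_cancel₀ _ (hD i)]
  have h2 : 2 * s * y * z i = (4 * y ^ 2 + s * q1) * x i + e := by
    rw [Df, Nf] at h1
    rw [he]
    linear_combination h1
  change Polynomial.eval (x i) P.toPoly = 0
  have h3 : (2 * s * y * z i) ^ 2 = ((4 * y ^ 2 + s * q1) * x i + e) ^ 2 := by rw [h2]
  rw [Cubic.toPoly]
  simp only [Polynomial.eval_add, Polynomial.eval_mul, Polynomial.eval_pow, Polynomial.eval_C,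
    Polynomial.eval_X, hP]
  linear_combination h3 - (2 * s * y) ^ 2 * hc i

theorem seq : S_SEQ := by
  intro K A _ _ _ _ _ _ y q1 q2 q3 q4 hy hB hBT
  classical
  set yA := algebraMap K A y with hyA
  set ι := algebraMap A (FractionRing A) with hι
  have hιinj : Function.Injective ι := IsFractionRing.injective A _
  have hKinj : Function.Injective (algebraMap K A) := RingHom.injective _
  have hyA0 : yA ≠ 0 := (map_ne_zero_iff _ hKinj).2 hy
  have hcA : CharZero A := charZero_of_injective_algebraMap hKinj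
  have hcF : CharZero (FractionRing A) := charZero_of_injective_algebraMap hιinj
  have hY0 : ι yA ≠ 0 := (map_ne_zero_iff _ hιinj).2 hyA0
  set B := q1 ^ 3 - 4 * yA ^ 2 * q1 * q2 + 8 * (yA ^ 2) ^ 2 * q3 with hBd
  set T := (q1 ^ 2 - 4 * yA ^ 2 * q2) ^ 2 - 64 * (yA ^ 2) ^ 3 * q4 with hTd
  have hnd1 : ¬ B ∣ T + 2 * q1 * B := by
    intro h
    apply hBT
    have h1 : B ∣ 2 * q1 * B := Dvd.intro_left _ rfl
    exact (dvd_add_left h1).1 h
  have hk : IsUnit (16 * yA ^ 2) := by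
    have h1 : (16 * yA ^ 2) = algebraMap K A (16 * y ^ 2) := by
      rw [map_mul, map_pow, map_ofNat]
    rw [h1]
    exact (isUnit_iff_ne_zero.2 (mul_ne_zero (by norm_num) (pow_ne_zero 2 hy))).map (algebraMap K A)
  obtain ⟨N, D, g, hg0, hN, hD, hd, hij, k, ik, ick, φ, π, hπ, hφ0, hφ⟩ :=
    ufdX (F := K) q2 (rb yA q1 q3 q4) (rc yA q1 q2 q3 q4) B (T + 2 * q1 * B)
      (8 * (q1 ^ 2 - 2 * yA ^ 2 * q2)) (16 * yA ^ 2) hB hnd1 hk
  -- the points
  have hrb : ι (rb yA q1 q3 q4) = rb (ι yA) (ι q1) (ι q3) (ι q4) := by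
    simp only [rb, map_sub, map_mul, map_pow, map_ofNat]
  have hrc : ι (rc yA q1 q2 q3 q4) = rc (ι yA) (ι q1) (ι q2) (ι q3) (ι q4) := by
    simp only [Pool.Agent.Y720.MZ.rc, map_sub, map_add, map_mul, map_pow, map_ofNat]
  have hBF : ι q1 ^ 3 - 4 * ι yA ^ 2 * ι q1 * ι q2 + 8 * (ι yA ^ 2) ^ 2 * ι q3 = ι B := by
    rw [hBd]
    simp only [map_sub, map_add, map_mul, map_pow, map_ofNat]
  have hBF0 : ι q1 ^ 3 - 4 * ι yA ^ 2 * ι q1 * ι q2 + 8 * (ι yA ^ 2) ^ 2 * ι q3 ≠ 0 := by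
    rw [hBF]
    exact (map_ne_zero_iff _ hιinj).2 hB
  obtain ⟨k1, k2⟩ := Pool.Agent.Y718.CL.dbl_id (q4 := ι q4) hY0 hBF0
  have hns : (cv (ι q2) (rb (ι yA) (ι q1) (ι q3) (ι q4))
      (rc (ι yA) (ι q1) (ι q2) (ι q3) (ι q4))).toAffine.Nonsingular
      (xs (ι yA) (ι q1) (ι q2)) (ys (ι yA) (ι q1) (ι q2) (ι q3)) :=
    cv_ns.2 ⟨s_eqn hY0, Or.inr k1⟩
  obtain ⟨h2, -⟩ := dbl_mk hns k1
    (ℓ := (3 * xs (ι yA) (ι q1) (ι q2) ^ 2 + 2 * ι q2 * xs (ι yA) (ι q1) (ι q2) +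
      rb (ι yA) (ι q1) (ι q3) (ι q4)) / (2 * ys (ι yA) (ι q1) (ι q2) (ι q3)))
    (div_mul_cancel₀ _ k1)
  set X2 := ((3 * xs (ι yA) (ι q1) (ι q2) ^ 2 + 2 * ι q2 * xs (ι yA) (ι q1) (ι q2) +
      rb (ι yA) (ι q1) (ι q3) (ι q4)) / (2 * ys (ι yA) (ι q1) (ι q2) (ι q3))) ^ 2 - ι q2 -
      xs (ι yA) (ι q1) (ι q2) - xs (ι yA) (ι q1) (ι q2) with hX2
  have hx : X2 * ι D = ι N := by
    have e5 := congrArg ι hN
    have e6 := congrArg ι hD
    have e3 : X2 * (16 * ι yA ^ 2 * ι B ^ 2) = ι (T + 2 * q1 * B) ^ 2 -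
        ι B ^ 2 * ι (8 * (q1 ^ 2 - 2 * yA ^ 2 * q2)) := by
      rw [← hBF]
      rw [k2, hTd, hBd]
      simp only [map_sub, map_add, map_mul, map_pow, map_ofNat]
    have e7 : ι g ^ 2 * (X2 * ι D) = ι g ^ 2 * ι N := by
      simp only [map_mul, map_pow, map_sub] at e5 e6 e3
      rw [map_ofNat] at e6
      linear_combination e3 + e5 - X2 * e6
    exact mul_left_cancel₀ (pow_ne_zero 2 ((map_ne_zero_iff _ hιinj).2 hg0)) e7
  have hit : ∀ i, itd (ι q2) (rb (ι yA) (ι q1) (ι q3) (ι q4))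
      (rc (ι yA) (ι q1) (ι q2) (ι q3) (ι q4)) (ι N, ι D) i =
      (ι (itd q2 (rb yA q1 q3 q4) (rc yA q1 q2 q3 q4) (N, D) i).1,
        ι (itd q2 (rb yA q1 q3 q4) (rc yA q1 q2 q3 q4) (N, D) i).2) := by
    intro i
    rw [← hrb, ← hrc]
    exact itd_map ι _ _ _ (N, D) i
  have hpt : ∀ i, ∃ X Z : FractionRing A, Z ^ 2 = X ^ 3 + ι q2 * X ^ 2 +
      rb (ι yA) (ι q1) (ι q3) (ι q4) * X + rc (ι yA) (ι q1) (ι q2) (ι q3) (ι q4) ∧
      X * ι (itd q2 (rb yA q1 q3 q4) (rc yA q1 q2 q3 q4) (N, D) i).2 =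
        ι (itd q2 (rb yA q1 q3 q4) (rc yA q1 q2 q3 q4) (N, D) i).1 ∧ Z ≠ 0 := by
    intro i
    obtain ⟨X, Z, h', -, e2⟩ := itd_pt h2 hx (M := i) (fun j _ => by
      rw [hit]
      exact (map_ne_zero_iff _ hιinj).2 (hd j)) i le_rfl
    rw [hit] at e2
    have hcur := (cv_ns.1 h').1
    refine ⟨X, Z, hcur, e2, ?_⟩
    rintro rfl
    apply hd (i + 1)
    apply hιinj
    rw [map_zero]
    simp only [itd, dbl]
    set q := itd q2 (rb yA q1 q3 q4) (rc yA q1 q2 q3 q4) (N, D) i with hq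
    simp only [map_add, map_mul, map_pow, map_ofNat, hrb, hrc]
    simp only at e2
    rw [← e2]
    linear_combination (-4 * ι q.2 ^ 4) * hcur
  choose X Z hcur hX hZ using hpt
  have hφy : φ yA ≠ 0 := by
    rw [hyA, ← RingHom.comp_apply]
    exact (map_ne_zero _).2 hy
  have hv := fun i => vals (q1 := q1) (q2 := q2) (q3 := q3) (b := rb yA q1 q3 q4)
    (c := rc yA q1 q2 q3 q4) hπ hφ0 hφy (hφ i).1 (hφ i).2 (hZ i) (hX i) (by
      have := hcur i
      rw [← hrb, ← hrc] at this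
      exact this)
  have hXinj : Function.Injective X := by
    intro i j h
    by_contra hne
    apply hij i j hne
    apply hιinj
    rw [map_zero, map_sub, map_mul, map_mul, ← hX i, ← hX j, h]
    ring
  set t : ℕ → FractionRing A := fun i => tf (ι yA) (ι q1) (ι q2) (ι q3) (X i) (Z i) with ht
  have hinf : (Set.range t).Infinite := by
    intro hfin
    have h1 : (t ⁻¹' (Set.range t)).Finite := hfin.preimage' fun s _ =>
      fib hY0 X Z hXinj hcur (fun i => (hv i).1) s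
    rw [Set.preimage_range] at h1
    exact Set.infinite_univ h1
  have hch : ∀ i : ℕ, ∃ m, t m = ((Set.Infinite.natEmbedding _ hinf i : Set.range t) : FractionRing A) :=
    fun i => (Set.Infinite.natEmbedding _ hinf i).2
  choose m hm using hch
  refine ⟨k, ik, φ, fun i => t (m i), fun i => Yf (ι yA) (ι q1) (ι q2) (ι q3) (X (m i)) (Z (m i)),
    ?_, fun i => ⟨?_, (hv (m i)).2.1, (hv (m i)).2.2⟩⟩
  · intro i j h
    simp only [hm] at h
    exact (Set.Infinite.natEmbedding _ hinf).injective (Subtype.ext h)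
  · exact Yf_eqn hY0 (hcur (m i)) (hv (m i)).1

end Pool.Agent.Y48.FQ
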